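import Pool.Agent.P.MP_4236ce_al.Main

/-!
Negative answer to Q1: a finitely generated group whose lower normal limits of `d_p` all vanish,
while the lower normal limit of the abelianisation rank is positive.
-/

namespace Pool.Agent.Results.MP_4236ce_al.Counterexample

/-- The subgroup `[A,A] A^p`, where `A^p` is generated by all `p`-th powers. -/
def commPow (p : ℕ) (A : Type) [Group A] : Subgroup A :=
  commutator A ⊔ Subgroup.closure (Set.range fun x : A => x ^ p)

instance commPowNormal (p : ℕ) (A : Type) [Group A] : (commPow p A).Normal :=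
  Subgroup.Normal.of_commutator_le A le_sup_left

instance abelianizationFG (A : Type) [Group A] [Group.FG A] : Group.FG (Abelianization A) :=
  inferInstanceAs (Group.FG (A ⧸ commutator A))

/-- `δ(A)`: the minimal number of generators of `A/[A,A]`. -/
noncomputable def delta (A : Type) [Group A] [Group.FG A] : ℕ := Group.rank (Abelianization A)

/-- `d_p(A)`: the minimal number of generators of `A/[A,A]A^p`. -/
noncomputable def dp (p : ℕ) (A : Type) [Group A] [Group.FG A] : ℕ := Group.rank (A ⧸ commPow p A)

/-- The normal subgroups of finite index. -/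
abbrev NFI (Γ : Type) [Group Γ] : Type := {N : Subgroup Γ // N.Normal ∧ N.FiniteIndex}

instance nfiFG (Γ : Type) [Group Γ] [Group.FG Γ] (N : NFI Γ) : Group.FG N.1 :=
  have := N.2.2
  Subgroup.fg_of_index_ne_zero N.1

/-- The lower normal limit `sup_M inf {f N : N ≤ M}`. -/
noncomputable def lowerNL {Γ : Type} [Group Γ] (f : NFI Γ → ℕ) : ℕ∞ :=
  ⨆ M : NFI Γ, ⨅ N : NFI Γ, ⨅ _ : N.1 ≤ M.1, (f N : ℕ∞)

open Pool.Agent.P.MP_4236ce_al in
theorem result : ∃ (Γ : Type) (_ : Group Γ) (_ : Group.FG Γ),
    (⨆ p : Nat.Primes, lowerNL fun N : NFI Γ => dp p N.1) = 0 ∧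
    1 ≤ lowerNL fun N : NFI Γ => delta N.1 := by
  refine ⟨G 0, inferInstance, inferInstance, ?_, ?_⟩
  · rw [ENat.iSup_eq_zero]
    intro p
    rw [lowerNL, ENat.iSup_eq_zero]
    rintro ⟨M, hM1, hM2⟩
    obtain ⟨r, hr, z, hz, hz1, hz2⟩ := exists_torsion M p.2
    let S : Set (G 0) := {g | g ∈ M ∧ g ^ r = 1}
    have hEn : (Subgroup.closure S).Normal := by
      constructor
      intro x hx g
      have : Subgroup.closure S ≤ (Subgroup.closure S).comap (MulAut.conj g).toMonoidHom := by
        rw [Subgroup.closure_le]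
        intro y hy
        apply Subgroup.subset_closure
        refine ⟨hM1.conj_mem y hy.1 g, ?_⟩
        rw [← map_pow, hy.2, map_one]
      exact this hx
    have hEb : Subgroup.closure S ≠ ⊥ := by
      intro h
      have : z ∈ Subgroup.closure S := Subgroup.subset_closure ⟨hz, hz2⟩
      rw [h] at this
      exact hz1 this
    have hEf := finiteIndex_of_normal (Subgroup.closure S) hEb
    have hle : Subgroup.closure S ≤ M := (Subgroup.closure_le M).2 fun _ h => h.1
    refine le_antisymm (iInf₂_le_of_le ⟨Subgroup.closure S, hEn, hEf⟩ hle ?_) bot_le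
    have htop : commPow p (Subgroup.closure S) = ⊤ := by
      rw [eq_top_iff, ← Subgroup.closure_preimage_eq_top S, Subgroup.closure_le]
      intro x hx
      have hx1 : x ^ r = 1 := Subtype.ext hx.2
      have hx2 : x ^ (p : ℕ) ∈ commPow p (Subgroup.closure S) :=
        Subgroup.mem_sup_right (Subgroup.subset_closure ⟨x, rfl⟩)
      have h1 : orderOf x ∣ r := orderOf_dvd_of_pow_eq_one hx1
      obtain ⟨k, hk⟩ := exists_pow_eq_self_of_coprime (x := x) (n := p)
        (Nat.Coprime.coprime_dvd_right h1 hr.symm)
      rw [← hk]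
      exact Subgroup.pow_mem _ hx2 k
    have : Subsingleton (Subgroup.closure S ⧸ commPow p (Subgroup.closure S)) := by
      rw [htop]; exact QuotientGroup.subsingleton_quotient_top
    simp only [dp, nonpos_iff_eq_zero, Nat.cast_eq_zero]
    exact Nat.eq_zero_of_le_zero (Group.rank_le (S := ∅) (Subsingleton.elim _ _))
  · refine le_iSup_of_le ⟨⊤, inferInstance, inferInstance⟩ (le_iInf₂ ?_)
    rintro ⟨N, hN1, hN2⟩ -
    rw [Nat.one_le_cast, Nat.one_le_iff_ne_zero]
    intro h0
    obtain ⟨S, hS1, hS2⟩ := Group.rank_spec (Abelianization N)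
    have hS : S = ∅ := Finset.card_eq_zero.1 (hS1.trans h0)
    apply commutator_ne_top N
    rw [eq_top_iff]
    intro x _
    have : Abelianization.of x ∈ (⊤ : Subgroup (Abelianization N)) := trivial
    rw [← hS2, hS] at this
    simpa [← Abelianization.ker_of] using this

end Pool.Agent.Results.MP_4236ce_al.Counterexample
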